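import Pool.Agent.Lib_helper96.A1.Clo

/-!
# MP_859019_mp, project A1: the identity `(P_w)` for fixed `w`
-/

set_option autoImplicit false
set_option linter.unusedSectionVars false

open scoped BigOperators ComplexOrder Kronecker MatrixOrder Topology
open MeasureTheory Set Matrix Filter

namespace Pool.Agent.A1

open Pool.Agent.Lib_helper96.A1



variable {ι κ : Type} [Fintype ι] [DecidableEq ι] [Fintype κ] [DecidableEq κ]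
variable (R₁ D₁ : Matrix ι ι ℂ) (R₂ D₂ : Matrix κ κ ℂ)

/-- `Re Tr Δ Z_t⁻¹` -/
noncomputable def uu (c e t w : ℝ) : ℝ := (tz R₁ D₁ R₂ D₂ (Dc D₁ R₂ D₂ c) c e t w).re

/-- `(1/w) Im Tr Δ Z_t⁻¹` -/
noncomputable def ui (c e t w : ℝ) : ℝ := (1 / w) * (tz R₁ D₁ R₂ D₂ (Dc D₁ R₂ D₂ c) c e t w).im

/-- `-(1/w) Im Tr (D₁ ⊗ R₂) Z_0⁻¹` -/
noncomputable def vv (c e w : ℝ) : ℝ := -(1 / w) * (tz R₁ D₁ R₂ D₂ (D₁ ⊗ₖ R₂) c e 0 w).im

/-- `ε ∫_0^1 Re Tr Δ Z_t⁻¹ dt` -/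
noncomputable def RF (c e w : ℝ) : ℝ := e * ∫ t in (0 : ℝ)..1, uu R₁ D₁ R₂ D₂ c e t w

/-- `Re Tr M_1 Z_1⁻¹ - Re Tr M_0 Z_0⁻¹` -/
noncomputable def mm (c e w : ℝ) : ℝ :=
  (tz R₁ D₁ R₂ D₂ (Mt R₁ D₁ R₂ D₂ c 1) c e 1 w).re - (tz R₁ D₁ R₂ D₂ (Mt R₁ D₁ R₂ D₂ c 0) c e 0 w).re

variable {R₁ D₁ R₂ D₂}

theorem cont_uu (h₁ : SPair R₁ D₁) (h₂ : SPair R₂ D₂) :
    ContinuousOn (fun x : ℝ × ℝ × ℝ × ℝ => uu R₁ D₁ R₂ D₂ x.1 x.2.1 x.2.2.1 x.2.2.2) Box :=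
  Complex.continuous_re.comp_continuousOn
    (continuousOn_tz h₁ h₂ (B := fun x => Dc D₁ R₂ D₂ x.1)
      ((continuous_Dc D₁ R₂ D₂).comp continuous_fst))

theorem cont_tzD (h₁ : SPair R₁ D₁) (h₂ : SPair R₂ D₂) :
    ContinuousOn (fun x : ℝ × ℝ × ℝ × ℝ => tz R₁ D₁ R₂ D₂ (Dc D₁ R₂ D₂ x.1) x.1 x.2.1 x.2.2.1
      x.2.2.2) Box :=
  continuousOn_tz h₁ h₂ (B := fun x => Dc D₁ R₂ D₂ x.1)
      ((continuous_Dc D₁ R₂ D₂).comp continuous_fst)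

theorem cont_tzR (h₁ : SPair R₁ D₁) (h₂ : SPair R₂ D₂) :
    ContinuousOn (fun x : ℝ × ℝ × ℝ × ℝ => tz R₁ D₁ R₂ D₂ (D₁ ⊗ₖ R₂) x.1 x.2.1 x.2.2.1
      x.2.2.2) Box :=
  continuousOn_tz h₁ h₂ (B := fun _ => D₁ ⊗ₖ R₂) continuous_const

theorem cont_tzM (h₁ : SPair R₁ D₁) (h₂ : SPair R₂ D₂) :
    ContinuousOn (fun x : ℝ × ℝ × ℝ × ℝ => tz R₁ D₁ R₂ D₂ (Mt R₁ D₁ R₂ D₂ x.1 x.2.2.1) x.1 x.2.1
      x.2.2.1 x.2.2.2) Box :=
  continuousOn_tz h₁ h₂ (B := fun x => Mt R₁ D₁ R₂ D₂ x.1 x.2.2.1)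
      ((continuous_Mt R₁ D₁ R₂ D₂).comp
        (f := fun x : ℝ × ℝ × ℝ × ℝ => (x.1, x.2.2.1)) (by fun_prop))

theorem int_tzD (h₁ : SPair R₁ D₁) (h₂ : SPair R₂ D₂) {c e w : ℝ} (hc : c ∈ Icc (-1 : ℝ) 1)
    (he : 0 ≤ e) : IntervalIntegrable
      (fun t => tz R₁ D₁ R₂ D₂ (Dc D₁ R₂ D₂ c) c e t w) volume 0 1 := by
  apply ContinuousOn.intervalIntegrable
  rw [uIcc_of_le zero_le_one]
  exact (cont_tzD h₁ h₂).comp (f := fun t : ℝ => (c, e, t, w)) (by fun_prop)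
    fun t ht => ⟨hc, he, ht⟩

theorem FF_re (h₁ : SPair R₁ D₁) (h₂ : SPair R₂ D₂) {c e w : ℝ} (hc : c ∈ Icc (-1 : ℝ) 1)
    (he : 0 ≤ e) : (FF R₁ D₁ R₂ D₂ c e w).re = RF R₁ D₁ R₂ D₂ c e w := by
  unfold FF RF uu
  rw [Complex.re_ofReal_mul]
  congr 1
  have h := Complex.reCLM.intervalIntegral_comp_comm (int_tzD h₁ h₂ (w := w) hc he)
  simpa using h.symm

theorem FF_im (h₁ : SPair R₁ D₁) (h₂ : SPair R₂ D₂) {c e w : ℝ} (hc : c ∈ Icc (-1 : ℝ) 1)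
    (he : 0 ≤ e) : (1 / w) * (FF R₁ D₁ R₂ D₂ c e w).im =
      e * ∫ t in (0 : ℝ)..1, ui R₁ D₁ R₂ D₂ c e t w := by
  unfold FF ui
  rw [Complex.im_ofReal_mul, intervalIntegral.integral_const_mul]
  have h := Complex.imCLM.intervalIntegral_comp_comm (int_tzD h₁ h₂ (w := w) hc he)
  simp only [Complex.imCLM_apply] at h
  rw [h]
  ring

/-- the integrand of the `c` direction -/
theorem im_Zc' {c e w : ℝ} (hw : 0 < w) :
    (1 / w) * (tz R₁ D₁ R₂ D₂ (Zc' R₁ D₁ R₂ D₂ c e 1 w) c e 1 w -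
        tz R₁ D₁ R₂ D₂ (Zc' R₁ D₁ R₂ D₂ c e 0 w) c e 0 w).im =
      -mm R₁ D₁ R₂ D₂ c e w + 2 * uu R₁ D₁ R₂ D₂ c e 1 w - uu R₁ D₁ R₂ D₂ c e 0 w
        + e * vv R₁ D₁ R₂ D₂ c e w := by
  have k1 : Kc R₁ D₁ R₂ D₂ c = Mt R₁ D₁ R₂ D₂ c 1 - (2 : ℂ) • Dc D₁ R₂ D₂ c := by
    unfold Kc Mt; ext i j; simp; ring
  have k0 : Kc R₁ D₁ R₂ D₂ c = Mt R₁ D₁ R₂ D₂ c 0 - Dc D₁ R₂ D₂ c := by
    unfold Kc Mt; ext i j; simp
  have e1 : tz R₁ D₁ R₂ D₂ (Zc' R₁ D₁ R₂ D₂ c e 1 w) c e 1 w =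
      -(Complex.I * w) * (tz R₁ D₁ R₂ D₂ (Mt R₁ D₁ R₂ D₂ c 1) c e 1 w -
        2 * tz R₁ D₁ R₂ D₂ (Dc D₁ R₂ D₂ c) c e 1 w) := by
    unfold Zc' tz
    rw [k1]
    simp only [Matrix.sub_mul, Matrix.smul_mul, Matrix.trace_sub, Matrix.trace_smul, smul_eq_mul]
    push_cast
    ring
  have e0 : tz R₁ D₁ R₂ D₂ (Zc' R₁ D₁ R₂ D₂ c e 0 w) c e 0 w =
      (e : ℂ) * tz R₁ D₁ R₂ D₂ (D₁ ⊗ₖ R₂) c e 0 w
      -(Complex.I * w) * (tz R₁ D₁ R₂ D₂ (Mt R₁ D₁ R₂ D₂ c 0) c e 0 w -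
        tz R₁ D₁ R₂ D₂ (Dc D₁ R₂ D₂ c) c e 0 w) := by
    unfold Zc' tz
    rw [k0]
    simp only [Matrix.sub_mul, Matrix.smul_mul, Matrix.trace_sub, Matrix.trace_smul, smul_eq_mul]
    push_cast
    ring
  rw [e1, e0]
  unfold mm uu vv
  simp [Complex.mul_im, Complex.mul_re]
  field_simp
  ring

/-- `c` direction -/
theorem step_c (h₁ : SPair R₁ D₁) (h₂ : SPair R₂ D₂) {e w : ℝ} (he : 0 ≤ e) (hw : 0 < w) :
    (e * ∫ t in (0 : ℝ)..1, ui R₁ D₁ R₂ D₂ 1 e t w) -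
      (e * ∫ t in (0 : ℝ)..1, ui R₁ D₁ R₂ D₂ (-1) e t w) =
      ∫ c in (-1 : ℝ)..1, (-mm R₁ D₁ R₂ D₂ c e w + 2 * uu R₁ D₁ R₂ D₂ c e 1 w -
        uu R₁ D₁ R₂ D₂ c e 0 w + e * vv R₁ D₁ R₂ D₂ c e w) := by
  rw [← FF_im h₁ h₂ (by constructor <;> norm_num) he, ← FF_im h₁ h₂ (by constructor <;> norm_num) he,
    ← mul_sub, ← Complex.sub_im, FF_c h₁ h₂ he w le_rfl (by norm_num) le_rfl]
  have hi : IntervalIntegrable (fun c => tz R₁ D₁ R₂ D₂ (Zc' R₁ D₁ R₂ D₂ c e 1 w) c e 1 w -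
        tz R₁ D₁ R₂ D₂ (Zc' R₁ D₁ R₂ D₂ c e 0 w) c e 0 w) volume (-1) 1 := by
    apply ContinuousOn.intervalIntegrable
    rw [uIcc_of_le (by norm_num)]
    have hc : ∀ t : ℝ, Continuous fun x : ℝ × ℝ × ℝ × ℝ => Zc' R₁ D₁ R₂ D₂ x.1 x.2.1 t x.2.2.2 :=
      fun t => (continuous_Zc' R₁ D₁ R₂ D₂).comp
        (f := fun x : ℝ × ℝ × ℝ × ℝ => (x.1, x.2.1, t, x.2.2.2)) (by fun_prop)
    apply ContinuousOn.sub
    · exact (continuousOn_tz h₁ h₂ (hc 1)).comp (f := fun c : ℝ => (c, e, (1 : ℝ), w))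
        (by fun_prop) fun c hc => ⟨hc, he, by constructor <;> norm_num⟩
    · exact (continuousOn_tz h₁ h₂ (hc 0)).comp (f := fun c : ℝ => (c, e, (0 : ℝ), w))
        (by fun_prop) fun c hc => ⟨hc, he, by constructor <;> norm_num⟩
  have h := Complex.imCLM.intervalIntegral_comp_comm hi
  simp only [Complex.imCLM_apply] at h
  rw [← h, ← intervalIntegral.integral_const_mul]
  congr 1
  funext c
  exact im_Zc' hw

/-- `ε` direction -/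
theorem step_e (h₁ : SPair R₁ D₁) (h₂ : SPair R₂ D₂) {c : ℝ} (hc : c ∈ Icc (-1 : ℝ) 1) {e : ℝ}
    (he : 0 < e) (w : ℝ) :
    HasDerivAt (fun e => RF R₁ D₁ R₂ D₂ c e w) (mm R₁ D₁ R₂ D₂ c e w) e := by
  set g : ℝ → ℂ := fun e => (tz R₁ D₁ R₂ D₂ (Mt R₁ D₁ R₂ D₂ c 1) c e 1 w -
        tz R₁ D₁ R₂ D₂ (Mt R₁ D₁ R₂ D₂ c 0) c e 0 w) with hg
  have cg : ContinuousOn g (Ici 0) := by
    apply ContinuousOn.sub
    · exact (cont_tzM h₁ h₂).comp (f := fun e : ℝ => (c, e, (1 : ℝ), w)) (by fun_prop)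
        fun e he => ⟨hc, he, by constructor <;> norm_num⟩
    · exact (cont_tzM h₁ h₂).comp (f := fun e : ℝ => (c, e, (0 : ℝ), w)) (by fun_prop)
        fun e he => ⟨hc, he, by constructor <;> norm_num⟩
  have h1 : HasDerivAt (fun e => ∫ x in (0 : ℝ)..e, g x) (g e) e := by
    apply intervalIntegral.integral_hasDerivAt_right
    · apply ContinuousOn.intervalIntegrable
      rw [uIcc_of_le he.le]
      exact cg.mono fun x hx => hx.1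
    · exact ContinuousOn.stronglyMeasurableAtFilter isOpen_Ioi (cg.mono Ioi_subset_Ici_self) e he
    · exact cg.continuousAt (Ici_mem_nhds he)
  have h2 : HasDerivAt (fun e => Complex.reCLM (∫ x in (0 : ℝ)..e, g x)) (Complex.reCLM (g e)) e :=
    Complex.reCLM.hasFDerivAt.comp_hasDerivAt e h1
  have h3 : (g e).re = mm R₁ D₁ R₂ D₂ c e w := by simp [hg, mm]
  rw [← h3]
  refine h2.congr_of_eventuallyEq ?_
  filter_upwards [Ioi_mem_nhds he] with x hx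
  have hx' : (0 : ℝ) < x := hx
  have h4 := FF_e h₁ h₂ hc w le_rfl hx'.le
  have h5 : FF R₁ D₁ R₂ D₂ c 0 w = 0 := by unfold FF; simp
  rw [h5, sub_zero] at h4
  rw [← FF_re h₁ h₂ hc hx'.le, h4]
  rfl

theorem cont_mm (h₁ : SPair R₁ D₁) (h₂ : SPair R₂ D₂) (w : ℝ) :
    ContinuousOn (fun x : ℝ × ℝ => mm R₁ D₁ R₂ D₂ x.1 x.2 w) (Icc (-1) 1 ×ˢ Ici 0) := by
  unfold mm
  apply ContinuousOn.sub
  · exact Complex.continuous_re.comp_continuousOn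
      ((cont_tzM h₁ h₂).comp (f := fun x : ℝ × ℝ => (x.1, x.2, (1 : ℝ), w)) (by fun_prop)
        fun x hx => ⟨hx.1, hx.2, by constructor <;> norm_num⟩)
  · exact Complex.continuous_re.comp_continuousOn
      ((cont_tzM h₁ h₂).comp (f := fun x : ℝ × ℝ => (x.1, x.2, (0 : ℝ), w)) (by fun_prop)
        fun x hx => ⟨hx.1, hx.2, by constructor <;> norm_num⟩)

theorem cont_uu2 (h₁ : SPair R₁ D₁) (h₂ : SPair R₂ D₂) (w : ℝ) {t : ℝ} (ht : t ∈ Icc (0 : ℝ) 1) :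
    ContinuousOn (fun x : ℝ × ℝ => uu R₁ D₁ R₂ D₂ x.1 x.2 t w) (Icc (-1) 1 ×ˢ Ici 0) :=
  (cont_uu h₁ h₂).comp (f := fun x : ℝ × ℝ => (x.1, x.2, t, w)) (by fun_prop)
        fun x hx => ⟨hx.1, hx.2, ht⟩

theorem cont_vv (h₁ : SPair R₁ D₁) (h₂ : SPair R₂ D₂) (w : ℝ) :
    ContinuousOn (fun x : ℝ × ℝ => vv R₁ D₁ R₂ D₂ x.1 x.2 w) (Icc (-1) 1 ×ˢ Ici 0) := by
  unfold vv
  exact continuousOn_const.mul (Complex.continuous_im.comp_continuousOn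
      ((cont_tzR h₁ h₂).comp (f := fun x : ℝ × ℝ => (x.1, x.2, (0 : ℝ), w)) (by fun_prop)
        fun x hx => ⟨hx.1, hx.2, by constructor <;> norm_num⟩))

/-- **(P_w)** -/
theorem Pw (h₁ : SPair R₁ D₁) (h₂ : SPair R₂ D₂) {w : ℝ} (hw : 0 < w) {a b : ℝ} (ha : 0 < a)
    (hab : a ≤ b) (om om' : ℝ → ℝ) (hom : ∀ e, 0 < e → HasDerivAt om (om' e) e)
    (hom' : ContinuousOn om' (Ioi 0)) :
    (∫ e in a..b, om e * (e * (∫ t in (0 : ℝ)..1, ui R₁ D₁ R₂ D₂ 1 e t w) -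
        e * ∫ t in (0 : ℝ)..1, ui R₁ D₁ R₂ D₂ (-1) e t w)) =
      ∫ c in (-1 : ℝ)..1, (-(om b * RF R₁ D₁ R₂ D₂ c b w - om a * RF R₁ D₁ R₂ D₂ c a w) +
        ∫ e in a..b, (om' e * RF R₁ D₁ R₂ D₂ c e w +
          om e * (2 * uu R₁ D₁ R₂ D₂ c e 1 w - uu R₁ D₁ R₂ D₂ c e 0 w) +
          om e * (e * vv R₁ D₁ R₂ D₂ c e w))) := by
  have com : ContinuousOn om (Ioi 0) := fun e he => (hom e he).continuousAt.continuousWithinAt
  have hsub : Icc a b ⊆ Ioi 0 := fun x hx => lt_of_lt_of_le ha hx.1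
  have hsub' : Icc a b ⊆ Ici (0 : ℝ) := fun x hx => (lt_of_lt_of_le ha hx.1).le
  -- the integrand on the rectangle
  set G : ℝ → ℝ → ℝ := fun c e => om e * (-mm R₁ D₁ R₂ D₂ c e w + 2 * uu R₁ D₁ R₂ D₂ c e 1 w -
        uu R₁ D₁ R₂ D₂ c e 0 w + e * vv R₁ D₁ R₂ D₂ c e w) with hG
  have cm := (cont_mm h₁ h₂ w).mono (prod_mono_right hsub' : Icc (-1 : ℝ) 1 ×ˢ Icc a b ⊆ _)
  have cu1 := (cont_uu2 h₁ h₂ w (t := 1) (by constructor <;> norm_num)).mono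
    (prod_mono_right hsub' : Icc (-1 : ℝ) 1 ×ˢ Icc a b ⊆ _)
  have cu0 := (cont_uu2 h₁ h₂ w (t := 0) (by constructor <;> norm_num)).mono
    (prod_mono_right hsub' : Icc (-1 : ℝ) 1 ×ˢ Icc a b ⊆ _)
  have cv := (cont_vv h₁ h₂ w).mono (prod_mono_right hsub' : Icc (-1 : ℝ) 1 ×ˢ Icc a b ⊆ _)
  have co : ContinuousOn (fun x : ℝ × ℝ => om x.2) (Icc (-1 : ℝ) 1 ×ˢ Icc a b) :=
    com.comp continuousOn_snd fun x hx => hsub hx.2
  have cG : ContinuousOn (fun x : ℝ × ℝ => G x.1 x.2) (Icc (-1 : ℝ) 1 ×ˢ Icc a b) :=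
    co.mul (((cm.neg.add (continuousOn_const.mul cu1)).sub cu0).add (continuousOn_snd.mul cv))
  have hswap : (∫ e in a..b, ∫ c in (-1 : ℝ)..1, G c e) = ∫ c in (-1 : ℝ)..1, ∫ e in a..b, G c e := by
    have h11 : (-1 : ℝ) ≤ 1 := by norm_num
    rw [intervalIntegral.integral_of_le hab, intervalIntegral.integral_of_le h11]
    simp only [intervalIntegral.integral_of_le hab, intervalIntegral.integral_of_le h11]
    rw [MeasureTheory.integral_integral_swap]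
    have hi : IntegrableOn (fun x : ℝ × ℝ => G x.1 x.2) (Icc (-1 : ℝ) 1 ×ˢ Icc a b)
      (volume.prod volume) := cG.integrableOn_compact (isCompact_Icc.prod isCompact_Icc)
    have hi2 : IntegrableOn (fun x : ℝ × ℝ => G x.1 x.2) (Ioc (-1 : ℝ) 1 ×ˢ Ioc a b)
        (volume.prod volume) := hi.mono_set (prod_mono Ioc_subset_Icc_self Ioc_subset_Icc_self)
    unfold IntegrableOn at hi2
    rw [← Measure.prod_restrict] at hi2
    exact hi2.swap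
  have hL : (∫ e in a..b, om e * (e * (∫ t in (0 : ℝ)..1, ui R₁ D₁ R₂ D₂ 1 e t w) -
        e * ∫ t in (0 : ℝ)..1, ui R₁ D₁ R₂ D₂ (-1) e t w)) = ∫ e in a..b, ∫ c in (-1 : ℝ)..1, G c e := by
    apply intervalIntegral.integral_congr
    intro e he
    rw [uIcc_of_le hab] at he
    simp only [hG]
    rw [step_c h₁ h₂ (hsub' he) hw, intervalIntegral.integral_const_mul]
  rw [hL, hswap]
  apply intervalIntegral.integral_congr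
  intro c hc
  rw [uIcc_of_le (by norm_num : (-1 : ℝ) ≤ 1)] at hc
  simp only
  -- integration by parts
  have sl : ∀ {f : ℝ × ℝ → ℝ}, ContinuousOn f (Icc (-1 : ℝ) 1 ×ˢ Icc a b) →
      ContinuousOn (fun e => f (c, e)) (Icc a b) := fun hf =>
    hf.comp (f := fun e : ℝ => (c, e)) (by fun_prop) fun e he => ⟨hc, he⟩
  have cm' : ContinuousOn (fun e => mm R₁ D₁ R₂ D₂ c e w) (Icc a b) := sl cm
  have cu1' : ContinuousOn (fun e => uu R₁ D₁ R₂ D₂ c e 1 w) (Icc a b) := sl cu1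
  have cu0' : ContinuousOn (fun e => uu R₁ D₁ R₂ D₂ c e 0 w) (Icc a b) := sl cu0
  have cv' : ContinuousOn (fun e => vv R₁ D₁ R₂ D₂ c e w) (Icc a b) := sl cv
  have cRF : ContinuousOn (fun e => RF R₁ D₁ R₂ D₂ c e w) (Icc a b) := fun e he =>
    (step_e h₁ h₂ hc (hsub he) w).continuousAt.continuousWithinAt
  have co' : ContinuousOn om (Icc a b) := com.mono hsub
  have co'' : ContinuousOn om' (Icc a b) := hom'.mono hsub
  have ii : ∀ {f : ℝ → ℝ}, ContinuousOn f (Icc a b) → IntervalIntegrable f volume a b := by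
    intro f hf
    apply ContinuousOn.intervalIntegrable
    rwa [uIcc_of_le hab]
  have hp := intervalIntegral.integral_mul_deriv_eq_deriv_mul (u := om) (u' := om')
    (v := fun e => RF R₁ D₁ R₂ D₂ c e w) (v' := fun e => mm R₁ D₁ R₂ D₂ c e w) (a := a) (b := b)
    (fun e he => hom e (hsub (by rwa [uIcc_of_le hab] at he)))
    (fun e he => step_e h₁ h₂ hc (hsub (by rwa [uIcc_of_le hab] at he)) w)
    (ii co'') (ii cm')
  have e1 : (∫ e in a..b, G c e) = -(∫ e in a..b, om e * mm R₁ D₁ R₂ D₂ c e w) +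
      ∫ e in a..b, (om e * (2 * uu R₁ D₁ R₂ D₂ c e 1 w - uu R₁ D₁ R₂ D₂ c e 0 w) +
          om e * (e * vv R₁ D₁ R₂ D₂ c e w)) := by
    rw [← intervalIntegral.integral_neg, ← intervalIntegral.integral_add]
    · congr 1
      funext e
      simp only [hG]
      ring
    · exact ii (co'.mul cm').neg
    · exact ii ((co'.mul ((continuousOn_const.mul cu1').sub cu0')).add
        (co'.mul (continuousOn_id.mul cv')))
  rw [e1, hp]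
  have e2 : (∫ e in a..b, (om' e * RF R₁ D₁ R₂ D₂ c e w +
          om e * (2 * uu R₁ D₁ R₂ D₂ c e 1 w - uu R₁ D₁ R₂ D₂ c e 0 w) +
          om e * (e * vv R₁ D₁ R₂ D₂ c e w))) = (∫ e in a..b, om' e * RF R₁ D₁ R₂ D₂ c e w) +
      ∫ e in a..b, (om e * (2 * uu R₁ D₁ R₂ D₂ c e 1 w - uu R₁ D₁ R₂ D₂ c e 0 w) +
          om e * (e * vv R₁ D₁ R₂ D₂ c e w)) := by
    rw [← intervalIntegral.integral_add]
    · congr 1
      funext e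
      ring
    · exact ii (co''.mul cRF)
    · exact ii ((co'.mul ((continuousOn_const.mul cu1').sub cu0')).add
        (co'.mul (continuousOn_id.mul cv')))
  rw [e2]
  ring

end Pool.Agent.A1
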