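import Mathlib

/-!
# MP_859019_mp, project A1: closedness of `Tr dZ Z⁻¹` on rectangles
-/

set_option autoImplicit false

open scoped BigOperators ComplexOrder Kronecker MatrixOrder Topology
open MeasureTheory Set Matrix Filter

namespace Pool.Agent.Lib_helper96.A1

variable {ν : Type} [Fintype ν] [DecidableEq ν]

attribute [local instance] Matrix.linftyOpNormedRing Matrix.linftyOpNormedAlgebra

theorem hasDerivAt_inv {Z : ℝ → Matrix ν ν ℂ} {Z' : Matrix ν ν ℂ} {s : ℝ}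
    (h : HasDerivAt Z Z' s) (hu : IsUnit (Z s)) :
    HasDerivAt (fun s => (Z s)⁻¹) (-((Z s)⁻¹ * Z' * (Z s)⁻¹)) s := by
  obtain ⟨u, hu⟩ := hu
  have h1 : HasFDerivAt (𝕜 := ℝ) Ring.inverse _ (u : Matrix ν ν ℂ) := hasFDerivAt_ringInverse u
  rw [hu] at h1
  have h4 := h1.comp_hasDerivAt s h
  have h5 : (Ring.inverse ∘ Z) = fun s : ℝ => (Z s)⁻¹ := by
    funext s
    simp only [Function.comp]
    rw [← Matrix.nonsing_inv_eq_ringInverse]
  rw [h5] at h4
  have h6 : ((u⁻¹ : (Matrix ν ν ℂ)ˣ) : Matrix ν ν ℂ) = (Z s)⁻¹ := by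
    rw [← hu]; exact (Matrix.coe_units_inv u)
  have h7 : (-((ContinuousLinearMap.mulLeftRight ℝ (Matrix ν ν ℂ)) ↑u⁻¹) ↑u⁻¹) Z' =
      -((Z s)⁻¹ * Z' * (Z s)⁻¹) := by simp [h6]
  rw [h7] at h4
  exact h4

theorem hasDerivAt_tr {F : ℝ → Matrix ν ν ℂ} {F' : Matrix ν ν ℂ} {s : ℝ}
    (hF : HasDerivAt F F' s) : HasDerivAt (fun s => (F s).trace) F'.trace s := by
  have h := (LinearMap.toContinuousLinearMap (Matrix.traceLinearMap ν ℝ ℂ)).hasFDerivAt.comp_hasDerivAt
    s hF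
  exact h

/-- `d Tr B Z⁻¹ = Tr B' Z⁻¹ - Tr B Z⁻¹ Z' Z⁻¹` -/
theorem hasDerivAt_tr_inv {B Z : ℝ → Matrix ν ν ℂ} {B' Z' : Matrix ν ν ℂ} {s : ℝ}
    (hB : HasDerivAt B B' s) (h : HasDerivAt Z Z' s) (hu : IsUnit (Z s)) :
    HasDerivAt (fun s => (B s * (Z s)⁻¹).trace)
      ((B' * (Z s)⁻¹).trace - (B s * (Z s)⁻¹ * Z' * (Z s)⁻¹).trace) s := by
  have h1 := hasDerivAt_tr (HasDerivAt.mul (𝔸 := Matrix ν ν ℂ) hB (hasDerivAt_inv h hu))
  refine h1.congr_deriv ?_
  rw [Matrix.trace_add]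
  simp only [Matrix.mul_neg, Matrix.trace_neg, Matrix.mul_assoc]
  rfl

theorem continuousOn_inv {X : Type} [TopologicalSpace X] {Z : X → Matrix ν ν ℂ} {S : Set X}
    (h : ContinuousOn Z S) (hu : ∀ x ∈ S, IsUnit (Z x)) : ContinuousOn (fun x => (Z x)⁻¹) S := by
  intro x hx
  obtain ⟨u, hu'⟩ := hu x hx
  have h1 : ContinuousAt Ring.inverse (u : Matrix ν ν ℂ) :=
    NormedRing.inverse_continuousAt u
  rw [hu'] at h1
  have h2 := h1.comp_continuousWithinAt (h x hx)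
  have h5 : (Ring.inverse ∘ Z) = fun s => (Z s)⁻¹ := by
    funext s
    simp only [Function.comp]
    rw [← Matrix.nonsing_inv_eq_ringInverse]
  rw [h5] at h2
  exact h2

/-- the rectangle lemma -/
theorem rect {Z Zs Zt Zst : ℝ → ℝ → Matrix ν ν ℂ} {a b p q : ℝ} (hab : a ≤ b) (hpq : p ≤ q)
    (hs : ∀ s t, HasDerivAt (fun s => Z s t) (Zs s t) s)
    (ht : ∀ s t, HasDerivAt (fun t => Z s t) (Zt s t) t)
    (hts : ∀ s t, HasDerivAt (fun s => Zt s t) (Zst s t) s)
    (hst : ∀ s t, HasDerivAt (fun t => Zs s t) (Zst s t) t)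
    (cZ : Continuous fun x : ℝ × ℝ => Z x.1 x.2) (cs : Continuous fun x : ℝ × ℝ => Zs x.1 x.2)
    (ct : Continuous fun x : ℝ × ℝ => Zt x.1 x.2) (cst : Continuous fun x : ℝ × ℝ => Zst x.1 x.2)
    (hu : ∀ s ∈ Icc a b, ∀ t ∈ Icc p q, IsUnit (Z s t)) :
    (∫ t in p..q, ((Zt b t * (Z b t)⁻¹).trace - (Zt a t * (Z a t)⁻¹).trace)) =
      ∫ s in a..b, ((Zs s q * (Z s q)⁻¹).trace - (Zs s p * (Z s p)⁻¹).trace) := by
  set g : ℝ → ℝ → ℂ := fun s t => (Zst s t * (Z s t)⁻¹).trace -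
    (Zt s t * (Z s t)⁻¹ * Zs s t * (Z s t)⁻¹).trace with hg
  have ci : ContinuousOn (fun x : ℝ × ℝ => (Z x.1 x.2)⁻¹) (Icc a b ×ˢ Icc p q) :=
    continuousOn_inv cZ.continuousOn fun x hx => hu _ hx.1 _ hx.2
  have cg : ContinuousOn (fun x : ℝ × ℝ => g x.1 x.2) (Icc a b ×ˢ Icc p q) := by
    apply ContinuousOn.sub
    · exact (Continuous.matrix_trace continuous_id).comp_continuousOn
        (cst.continuousOn.mul ci)
    · exact (Continuous.matrix_trace continuous_id).comp_continuousOn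
        (((ct.continuousOn.mul ci).mul cs.continuousOn).mul ci)
  have cyc : ∀ s t, (Zs s t * (Z s t)⁻¹ * Zt s t * (Z s t)⁻¹).trace =
      (Zt s t * (Z s t)⁻¹ * Zs s t * (Z s t)⁻¹).trace := by
    intro s t
    rw [Matrix.mul_assoc (Zs s t * (Z s t)⁻¹), Matrix.trace_mul_comm]
    simp only [Matrix.mul_assoc]
  have h1 : ∀ t ∈ Icc p q, (∫ s in a..b, g s t) =
      (Zt b t * (Z b t)⁻¹).trace - (Zt a t * (Z a t)⁻¹).trace := by
    intro t htt
    apply intervalIntegral.integral_eq_sub_of_hasDerivAt (f := fun s => (Zt s t * (Z s t)⁻¹).trace)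
    · intro s hss
      rw [uIcc_of_le hab] at hss
      exact hasDerivAt_tr_inv (hts s t) (hs s t) (hu s hss t htt)
    · apply ContinuousOn.intervalIntegrable
      rw [uIcc_of_le hab]
      exact cg.comp (f := fun s : ℝ => (s, t)) (by fun_prop) fun s hss => ⟨hss, htt⟩
  have h2 : ∀ s ∈ Icc a b, (∫ t in p..q, g s t) =
      (Zs s q * (Z s q)⁻¹).trace - (Zs s p * (Z s p)⁻¹).trace := by
    intro s hss
    apply intervalIntegral.integral_eq_sub_of_hasDerivAt (f := fun t => (Zs s t * (Z s t)⁻¹).trace)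
    · intro t htt
      rw [uIcc_of_le hpq] at htt
      have h := hasDerivAt_tr_inv (hst s t) (ht s t) (hu s hss t htt)
      rw [cyc] at h
      exact h
    · apply ContinuousOn.intervalIntegrable
      rw [uIcc_of_le hpq]
      exact cg.comp (f := fun t : ℝ => (s, t)) (by fun_prop) fun t htt => ⟨hss, htt⟩
  have h3 : (∫ t in p..q, ∫ s in a..b, g s t) = ∫ s in a..b, ∫ t in p..q, g s t := by
    rw [intervalIntegral.integral_of_le hpq, intervalIntegral.integral_of_le hab]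
    simp only [intervalIntegral.integral_of_le hpq, intervalIntegral.integral_of_le hab]
    rw [MeasureTheory.integral_integral_swap]
    have hi : IntegrableOn (fun x : ℝ × ℝ => g x.1 x.2) (Icc a b ×ˢ Icc p q) (volume.prod volume) :=
      cg.integrableOn_compact (isCompact_Icc.prod isCompact_Icc)
    have hi2 : IntegrableOn (fun x : ℝ × ℝ => g x.1 x.2) (Ioc a b ×ˢ Ioc p q)
        (volume.prod volume) := hi.mono_set (prod_mono Ioc_subset_Icc_self Ioc_subset_Icc_self)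
    unfold IntegrableOn at hi2
    rw [← Measure.prod_restrict] at hi2
    exact hi2.swap
  rw [← intervalIntegral.integral_congr (f := fun t => ∫ s in a..b, g s t), h3]
  · apply intervalIntegral.integral_congr
    intro s hss
    rw [uIcc_of_le hab] at hss
    exact h2 s hss
  · intro t htt
    rw [uIcc_of_le hpq] at htt
    exact h1 t htt

end Pool.Agent.Lib_helper96.A1
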