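import Pool.Agent.Lib_helper96.A1.Def
import Pool.Agent.Lib_helper96.A1.Rect

/-!
# MP_859019_mp, project A1: positivity and invertibility of the letters
-/

set_option autoImplicit false
set_option linter.unusedSectionVars false

open scoped BigOperators ComplexOrder Kronecker MatrixOrder Topology
open MeasureTheory Set Matrix Filter

namespace Pool.Agent.A1

variable {ν ι κ : Type} [Fintype ν] [DecidableEq ν] [Fintype ι] [DecidableEq ι] [Fintype κ]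
  [DecidableEq κ]

theorem coe_smul_mat (r : ℝ) (A : Matrix ν ν ℂ) : (r : ℂ) • A = r • A := by
  ext i j; simp

/-- `N + i w J` is invertible for `N > 0`, `J` hermitian -/
theorem isUnit_add_I {N J : Matrix ν ν ℂ} (hN : N.PosDef) (hJ : J.IsHermitian) (w : ℝ) :
    IsUnit (N + (Complex.I * w) • J) := by
  rw [← Matrix.mulVec_injective_iff_isUnit]
  rw [← Matrix.coe_mulVecLin, ← LinearMap.ker_eq_bot, LinearMap.ker_eq_bot']
  intro v hv
  rw [Matrix.mulVecLin_apply] at hv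
  by_contra hne
  have h1 := hN.re_dotProduct_pos hne
  have h2 := hJ.im_star_dotProduct_mulVec_self v
  have h3 : star v ⬝ᵥ ((N + (Complex.I * w) • J) *ᵥ v) = 0 := by rw [hv]; simp
  rw [Matrix.add_mulVec, Matrix.smul_mulVec, dotProduct_add, dotProduct_smul] at h3
  have h4 := congrArg Complex.re h3
  simp only [RCLike.re_eq_complex_re, RCLike.im_eq_complex_im] at h1 h2
  simp [Complex.add_re, Complex.mul_re, Complex.mul_im, h2] at h4
  linarith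

section pair
variable {R D : Matrix ν ν ℂ}

theorem SPair.posDef (h : SPair R D) : R.PosDef := by
  have h1 : ((1 / 2 : ℝ) • ((R - D) + (R + D))).PosDef := (h.sub.add h.add).smul (by norm_num)
  convert h1 using 1
  ext i j
  simp
  ring

theorem SPair.herm (h : SPair R D) : D.IsHermitian := by
  have h1 := h.add.isHermitian.sub h.posDef.isHermitian
  simpa using h1

theorem Xc_posDef (h : SPair R D) {c : ℝ} (hc : c ∈ Icc (-1 : ℝ) 1) : (Xc R D c).PosDef := by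
  obtain ⟨h1, h2⟩ := hc
  have e : Xc R D c = ((1 + c) / 2 : ℝ) • (R + D) + ((1 - c) / 2 : ℝ) • (R - D) := by
    unfold Xc
    ext i j
    simp
    ring
  rw [e]
  rcases eq_or_lt_of_le h1 with h3 | h3
  · rw [← h3]
    norm_num
    exact h.sub
  · have a1 : (((1 + c) / 2 : ℝ) • (R + D)).PosDef := h.add.smul (by linarith)
    exact a1.add_posSemidef (h.sub.posSemidef.smul (by linarith))

theorem Wc_herm (h : SPair R D) (c : ℝ) : (Wc R D c).IsHermitian := by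
  unfold Wc
  rw [coe_smul_mat]
  exact h.herm.sub (h.posDef.isHermitian.smul (by exact (IsSelfAdjoint.all c)))

theorem Xc_herm (h : SPair R D) (c : ℝ) : (Xc R D c).IsHermitian := by
  unfold Xc
  rw [coe_smul_mat]
  exact h.posDef.isHermitian.add (h.herm.smul (by exact (IsSelfAdjoint.all c)))

theorem Wc_one (h : SPair R D) : (-(Wc R D 1)).PosDef := by
  have : -(Wc R D 1) = R - D := by unfold Wc; simp
  rw [this]; exact h.sub

theorem Wc_neg_one (h : SPair R D) : (Wc R D (-1)).PosDef := by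
  have : Wc R D (-1) = R + D := by unfold Wc; simp [add_comm]
  rw [this]; exact h.add

end pair

theorem herm_kron {A : Matrix ι ι ℂ} {B : Matrix κ κ ℂ} (hA : A.IsHermitian)
    (hB : B.IsHermitian) : (A ⊗ₖ B).IsHermitian := by
  unfold Matrix.IsHermitian at *
  rw [Matrix.conjTranspose_kronecker, hA, hB]

variable {R₁ D₁ : Matrix ι ι ℂ} {R₂ D₂ : Matrix κ κ ℂ}

theorem Jc_herm (h₁ : SPair R₁ D₁) (h₂ : SPair R₂ D₂) (c : ℝ) : (Jc R₁ D₁ R₂ D₂ c).IsHermitian :=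
  herm_kron (Xc_herm h₁ c) (Wc_herm h₂ c)

theorem Dc_herm (h₁ : SPair R₁ D₁) (h₂ : SPair R₂ D₂) (c : ℝ) : (Dc D₁ R₂ D₂ c).IsHermitian :=
  herm_kron h₁.herm (Wc_herm h₂ c)

/-- `M_1 = R₁ ⊗ R₂ + D₁ ⊗ D₂` does not depend on `c` -/
theorem Mt_one (c : ℝ) : Mt R₁ D₁ R₂ D₂ c 1 = R₁ ⊗ₖ R₂ + D₁ ⊗ₖ D₂ := by
  unfold Mt Dc Xc Wc
  ext i j
  simp [Matrix.kroneckerMap_apply]
  ring

theorem M_posDef (h₁ : SPair R₁ D₁) (h₂ : SPair R₂ D₂) : (R₁ ⊗ₖ R₂ + D₁ ⊗ₖ D₂).PosDef := by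
  have e : R₁ ⊗ₖ R₂ + D₁ ⊗ₖ D₂ = (1 / 2 : ℝ) • ((R₁ + D₁) ⊗ₖ (R₂ + D₂) + (R₁ - D₁) ⊗ₖ (R₂ - D₂)) := by
    ext i j
    simp [Matrix.kroneckerMap_apply]
    ring
  rw [e]
  exact ((h₁.add.kronecker h₂.add).add (h₁.sub.kronecker h₂.sub)).smul (by norm_num)

theorem Mt_posDef (h₁ : SPair R₁ D₁) (h₂ : SPair R₂ D₂) {c : ℝ} (hc : c ∈ Icc (-1 : ℝ) 1) {t : ℝ}
    (ht : t ∈ Icc (0 : ℝ) 1) : (Mt R₁ D₁ R₂ D₂ c t).PosDef := by
  have e : Mt R₁ D₁ R₂ D₂ c t = t • (R₁ ⊗ₖ R₂ + D₁ ⊗ₖ D₂) + (1 - t) • (Xc R₁ D₁ c ⊗ₖ R₂) := by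
    rw [← Mt_one (R₁ := R₁) (D₁ := D₁) (R₂ := R₂) (D₂ := D₂) c]
    unfold Mt
    ext i j
    simp
    ring
  rw [e]
  obtain ⟨h3, h4⟩ := ht
  have k : (Xc R₁ D₁ c ⊗ₖ R₂).PosDef := (Xc_posDef h₁ hc).kronecker h₂.posDef
  rcases eq_or_lt_of_le h3 with h5 | h5
  · rw [← h5]; simpa using k
  · exact ((M_posDef h₁ h₂).smul h5).add_posSemidef (k.posSemidef.smul (by linarith))

theorem Nt_posDef (h₁ : SPair R₁ D₁) (h₂ : SPair R₂ D₂) {c : ℝ} (hc : c ∈ Icc (-1 : ℝ) 1) {e : ℝ}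
    (he : 0 ≤ e) {t : ℝ} (ht : t ∈ Icc (0 : ℝ) 1) : (Nt R₁ D₁ R₂ D₂ c e t).PosDef := by
  unfold Nt
  rw [coe_smul_mat]
  exact Matrix.PosDef.one.add_posSemidef ((Mt_posDef h₁ h₂ hc ht).posSemidef.smul he)

theorem Zt_unit (h₁ : SPair R₁ D₁) (h₂ : SPair R₂ D₂) {c : ℝ} (hc : c ∈ Icc (-1 : ℝ) 1) {e : ℝ}
    (he : 0 ≤ e) {t : ℝ} (ht : t ∈ Icc (0 : ℝ) 1) (w : ℝ) : IsUnit (Zt R₁ D₁ R₂ D₂ c e t w) :=
  isUnit_add_I (Nt_posDef h₁ h₂ hc he ht) (Jc_herm h₁ h₂ c) w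

end Pool.Agent.A1
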