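import Pool.Agent.Lib_helper59.A1.Defs
import Pool.Agent.Lib_helper50.A1.Wint
import Pool.Agent.Lib_helper50.A1.Fub

/-!
# MP_859019_mp, project A1: the boundary `c = ±1`
-/

set_option autoImplicit false
set_option linter.unusedSectionVars false

open scoped BigOperators ComplexOrder Kronecker MatrixOrder Topology
open MeasureTheory Set Matrix Filter

namespace Pool.Agent.A1

open Pool.Agent.A1W

variable {ν ι κ : Type} [Fintype ν] [DecidableEq ν] [Fintype ι] [DecidableEq ι] [Fintype κ]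
  [DecidableEq κ]

theorem Zt_eq_Zm' (R₁ D₁ : Matrix ι ι ℂ) (R₂ D₂ : Matrix κ κ ℂ) (c e t w : ℝ) :
    Zt R₁ D₁ R₂ D₂ c e t w = Zm (Nt R₁ D₁ R₂ D₂ c e t) (Jc R₁ D₁ R₂ D₂ c) w := by
  unfold Zt Zm
  rw [mul_comm]

namespace Frame

variable {N J V W : Matrix ν ν ℂ} {l : ν → ℝ}

theorem sum_dgn (h : Frame N J V W l) (B : Matrix ν ν ℂ) :
    ∑ k, (dgn V B k).re = ((B * N⁻¹).trace).re := by
  rw [h.invN, ← Complex.re_sum]
  congr 1
  have e : (B * (V * Vᴴ)).trace = (Vᴴ * B * V).trace := by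
    calc (B * (V * Vᴴ)).trace = ((B * V) * Vᴴ).trace := by congr 1; noncomm_ring
      _ = (Vᴴ * (B * V)).trace := Matrix.trace_mul_comm _ _
      _ = _ := by congr 1; noncomm_ring
  rw [e]
  rfl

theorem integral_im (h : Frame N J V W l) {B : Matrix ν ν ℂ} (hB : B.IsHermitian) :
    ∫ w in Ioi (0 : ℝ), -(((B * (Zm N J w)⁻¹).trace).im / w) =
      ∑ k, (dgn V B k).re * (Real.pi / 2 * SignType.sign (l k)) := by
  rw [setIntegral_congr_fun (g := fun w => ∑ k, (dgn V B k).re * (l k * ker (l k) w))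
    measurableSet_Ioi fun w hw => h.im_div hB (ne_of_gt hw)]
  rw [integral_finsetSum]
  · apply Finset.sum_congr rfl
    intro k _
    rw [integral_const_mul, integral_mul_ker]
  · intro k _
    exact (integrableOn_mul_ker _).const_mul _

theorem inj (h : Frame N J V W l) : Function.Injective V.mulVec := by
  intro x y hxy
  have h1 : W *ᵥ (V *ᵥ x) = W *ᵥ (V *ᵥ y) := by rw [hxy]
  rwa [Matrix.mulVec_mulVec, Matrix.mulVec_mulVec, h.wv, Matrix.one_mulVec, Matrix.one_mulVec] at h1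

theorem l_pos (h : Frame N J V W l) (hJ : J.PosDef) (k : ν) : 0 < l k := by
  have h1 : (Vᴴ * J * V).PosDef := hJ.conjTranspose_mul_mul_same h.inj
  rw [h.hJ] at h1
  have h2 := h1.diag_pos (i := k)
  rw [Matrix.diagonal_apply_eq] at h2
  exact_mod_cast h2

theorem l_neg (h : Frame N J V W l) (hJ : (-J).PosDef) (k : ν) : l k < 0 := by
  have h1 : (Vᴴ * (-J) * V).PosDef := hJ.conjTranspose_mul_mul_same h.inj
  rw [Matrix.mul_neg, Matrix.neg_mul, h.hJ] at h1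
  have h2 := h1.diag_pos (i := k)
  rw [Matrix.neg_apply, Matrix.diagonal_apply_eq] at h2
  have h3 : (0 : ℝ) < -(l k) := by exact_mod_cast h2
  linarith

end Frame

/-- `∫ -Im Tr B Z⁻¹ / w = (π/2) Tr B N⁻¹` for `J > 0` -/
theorem integral_im_pos {N J B : Matrix ν ν ℂ} (hN : N.PosDef) (hJ : J.PosDef)
    (hB : B.IsHermitian) : ∫ w in Ioi (0 : ℝ), -(((B * (Zm N J w)⁻¹).trace).im / w) =
      Real.pi / 2 * ((B * N⁻¹).trace).re := by
  obtain ⟨V, W, l, h⟩ := exists_frame hN hJ.isHermitian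
  rw [h.integral_im hB, ← h.sum_dgn, Finset.mul_sum]
  apply Finset.sum_congr rfl
  intro k _
  rw [sign_pos (h.l_pos hJ k)]
  simp
  ring

theorem integral_im_neg {N J B : Matrix ν ν ℂ} (hN : N.PosDef) (hJ : (-J).PosDef)
    (hB : B.IsHermitian) : ∫ w in Ioi (0 : ℝ), -(((B * (Zm N J w)⁻¹).trace).im / w) =
      -(Real.pi / 2 * ((B * N⁻¹).trace).re) := by
  have hJ' : J.IsHermitian := by
    have := hJ.isHermitian.neg
    simpa using this
  obtain ⟨V, W, l, h⟩ := exists_frame hN hJ'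
  rw [h.integral_im hB, ← h.sum_dgn, Finset.mul_sum, ← Finset.sum_neg_distrib]
  apply Finset.sum_congr rfl
  intro k _
  rw [sign_neg (h.l_neg hJ k)]
  simp
  ring

/-- `∫_0^1 Tr E (N + t E)⁻¹ dt = log det (N + E) - log det N` -/
theorem ld_path {N E : Matrix ν ν ℂ} (hN : N.PosDef) (hE : E.IsHermitian)
    (h1 : (N + E).PosDef) :
    ∫ t in (0 : ℝ)..1, ((E * (N + (t : ℂ) • E)⁻¹).trace).re = ld (N + E) - ld N := by
  obtain ⟨V, W, l, h⟩ := exists_frame hN hE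
  have hdet : W.det ≠ 0 := by
    intro h0
    have := congrArg Matrix.det h.wv
    rw [Matrix.det_mul, h0, zero_mul, Matrix.det_one] at this
    exact zero_ne_one this
  -- `N + t E` in the frame
  have hpath : ∀ t : ℝ, N + (t : ℂ) • E =
      Wᴴ * Matrix.diagonal (fun k => ((1 + t * l k : ℝ) : ℂ)) * W := by
    intro t
    have e : Matrix.diagonal (fun k => ((1 + t * l k : ℝ) : ℂ)) =
        1 + (t : ℂ) • Matrix.diagonal (fun k => (l k : ℂ)) := by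
      ext i j
      by_cases hij : i = j
      · subst hij; simp
      · simp [hij]
    rw [e, mul_add, add_mul, mul_one, Matrix.mul_smul, Matrix.smul_mul, ← h.eqJ, ← h.eqN]
  have hl : ∀ k, 0 < 1 + l k := by
    intro k
    have h2 : (Vᴴ * (N + E) * V).PosDef := h1.conjTranspose_mul_mul_same h.inj
    have e : Vᴴ * (N + E) * V = Matrix.diagonal (fun k => ((1 + l k : ℝ) : ℂ)) := by
      rw [Matrix.mul_add, Matrix.add_mul, h.hN, h.hJ]
      ext i j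
      by_cases hij : i = j
      · subst hij; simp
      · simp [hij]
    rw [e] at h2
    have h3 := h2.diag_pos (i := k)
    rw [Matrix.diagonal_apply_eq] at h3
    exact_mod_cast h3
  have hlt : ∀ t ∈ Icc (0 : ℝ) 1, ∀ k, 0 < 1 + t * l k := by
    intro t ht k
    have := hl k
    rcases le_total 0 (l k) with h4 | h4
    · have := mul_nonneg ht.1 h4
      linarith
    · have : l k ≤ t * l k := by nlinarith [ht.2]
      linarith
  -- determinant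
  have hD : ∀ t ∈ Icc (0 : ℝ) 1, ld (N + (t : ℂ) • E) =
      Real.log (Complex.normSq W.det) + ∑ k, Real.log (1 + t * l k) := by
    intro t ht
    unfold ld
    rw [hpath t, Matrix.det_mul, Matrix.det_mul, Matrix.det_conjTranspose, Matrix.det_diagonal]
    have e : (star W.det * (∏ k, ((1 + t * l k : ℝ) : ℂ)) * W.det) =
        ((Complex.normSq W.det * ∏ k, (1 + t * l k) : ℝ) : ℂ) := by
      push_cast
      rw [Complex.normSq_eq_conj_mul_self, Complex.star_def]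
      ring
    rw [e, Complex.ofReal_re, Real.log_mul, Real.log_prod]
    · intro k _
      exact (hlt t ht k).ne'
    · exact (Complex.normSq_pos.2 hdet).ne'
    · exact Finset.prod_ne_zero_iff.2 fun k _ => (hlt t ht k).ne'
  have hI : ∀ t ∈ Icc (0 : ℝ) 1, ((E * (N + (t : ℂ) • E)⁻¹).trace).re =
      ∑ k, l k / (1 + t * l k) := by
    intro t ht
    have hinv : (N + (t : ℂ) • E)⁻¹ =
        V * Matrix.diagonal (fun k => (((1 + t * l k)⁻¹ : ℝ) : ℂ)) * Vᴴ := by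
      apply Matrix.inv_eq_right_inv
      rw [hpath t]
      have e : Matrix.diagonal (fun k => ((1 + t * l k : ℝ) : ℂ)) *
          Matrix.diagonal (fun k => (((1 + t * l k)⁻¹ : ℝ) : ℂ)) = 1 := by
        rw [Matrix.diagonal_mul_diagonal, ← Matrix.diagonal_one]
        congr 1
        funext k
        rw [← Complex.ofReal_mul, mul_inv_cancel₀ (hlt t ht k).ne', Complex.ofReal_one]
      calc Wᴴ * Matrix.diagonal (fun k => ((1 + t * l k : ℝ) : ℂ)) * W *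
            (V * Matrix.diagonal (fun k => (((1 + t * l k)⁻¹ : ℝ) : ℂ)) * Vᴴ) =
          Wᴴ * (Matrix.diagonal (fun k => ((1 + t * l k : ℝ) : ℂ)) * (W * V) *
            Matrix.diagonal (fun k => (((1 + t * l k)⁻¹ : ℝ) : ℂ))) * Vᴴ := by noncomm_ring
        _ = 1 := by rw [h.wv, mul_one, e, mul_one, h.vw']
    have e : (E * (N + (t : ℂ) • E)⁻¹).trace = (Vᴴ * E * V *
        Matrix.diagonal (fun k => (((1 + t * l k)⁻¹ : ℝ) : ℂ))).trace := by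
      rw [hinv]
      calc _ = ((E * V * Matrix.diagonal (fun k => (((1 + t * l k)⁻¹ : ℝ) : ℂ))) * Vᴴ).trace := by
            congr 1; noncomm_ring
        _ = (Vᴴ * (E * V * Matrix.diagonal (fun k => (((1 + t * l k)⁻¹ : ℝ) : ℂ)))).trace :=
            Matrix.trace_mul_comm _ _
        _ = _ := by congr 1; noncomm_ring
    rw [e, h.hJ, Matrix.diagonal_mul_diagonal, Matrix.trace_diagonal, Complex.re_sum]
    apply Finset.sum_congr rfl
    intro k _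
    rw [← Complex.ofReal_mul, Complex.ofReal_re]
    rfl
  have hd : ∀ t ∈ Icc (0 : ℝ) 1, HasDerivAt (fun t : ℝ => ∑ k, Real.log (1 + t * l k))
      (∑ k, l k / (1 + t * l k)) t := by
    intro t ht
    apply HasDerivAt.fun_sum
    intro k _
    have h5 : HasDerivAt (fun t : ℝ => 1 + t * l k) (l k) t := by
      have := ((hasDerivAt_id t).mul_const (l k)).const_add 1
      simpa using this
    exact h5.log (hlt t ht k).ne'
  have hc : ContinuousOn (fun t : ℝ => ∑ k, l k / (1 + t * l k)) (Icc 0 1) := by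
    apply continuousOn_finsetSum
    intro k _
    exact continuousOn_const.div (by fun_prop) fun t ht => (hlt t ht k).ne'
  have e1 : ∫ t in (0 : ℝ)..1, ((E * (N + (t : ℂ) • E)⁻¹).trace).re =
      ∫ t in (0 : ℝ)..1, ∑ k, l k / (1 + t * l k) := by
    apply intervalIntegral.integral_congr
    intro t ht
    rw [uIcc_of_le zero_le_one] at ht
    exact hI t ht
  rw [e1, intervalIntegral.integral_eq_sub_of_hasDerivAt
    (f := fun t : ℝ => ∑ k, Real.log (1 + t * l k))]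
  · have a1 := hD 1 (by constructor <;> norm_num)
    have a0 := hD 0 (by constructor <;> norm_num)
    simp only [Complex.ofReal_one, one_smul, Complex.ofReal_zero, zero_smul, add_zero] at a1 a0
    rw [a1, a0]
    simp
  · intro t ht
    rw [uIcc_of_le zero_le_one] at ht
    exact hd t ht
  · apply ContinuousOn.intervalIntegrable
    rw [uIcc_of_le zero_le_one]
    exact hc

/-! ### the letters -/

variable {R₁ D₁ : Matrix ι ι ℂ} {R₂ D₂ : Matrix κ κ ℂ}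

theorem Jc_one_neg (h₁ : SPair R₁ D₁) (h₂ : SPair R₂ D₂) : (-(Jc R₁ D₁ R₂ D₂ 1)).PosDef := by
  have e : -(Jc R₁ D₁ R₂ D₂ 1) = Xc R₁ D₁ 1 ⊗ₖ (-(Wc R₂ D₂ 1)) := by
    unfold Jc
    ext i j
    simp [Matrix.kroneckerMap_apply]
  rw [e]
  exact (Xc_posDef h₁ (by constructor <;> norm_num)).kronecker (Wc_one h₂)

theorem Jc_neg_one_pos (h₁ : SPair R₁ D₁) (h₂ : SPair R₂ D₂) : (Jc R₁ D₁ R₂ D₂ (-1)).PosDef :=
  (Xc_posDef h₁ (by constructor <;> norm_num)).kronecker (Wc_neg_one h₂)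

theorem ui_eq (c e t w : ℝ) : ui R₁ D₁ R₂ D₂ c e t w =
    -(-(((Dc D₁ R₂ D₂ c * (Zm (Nt R₁ D₁ R₂ D₂ c e t) (Jc R₁ D₁ R₂ D₂ c) w)⁻¹).trace).im / w)) := by
  unfold ui tz
  rw [Zt_eq_Zm']
  ring

theorem integral_ui_one (h₁ : SPair R₁ D₁) (h₂ : SPair R₂ D₂) {e t : ℝ} (he : 0 ≤ e)
    (ht : t ∈ Icc (0 : ℝ) 1) : 2 / Real.pi * ∫ w in Ioi (0 : ℝ), ui R₁ D₁ R₂ D₂ 1 e t w =
      ((Dc D₁ R₂ D₂ 1 * (Nt R₁ D₁ R₂ D₂ 1 e t)⁻¹).trace).re := by
  simp only [ui_eq]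
  rw [integral_neg, integral_im_neg (Nt_posDef h₁ h₂ (by constructor <;> norm_num) he ht)
    (Jc_one_neg h₁ h₂) (Dc_herm h₁ h₂ 1)]
  have := Real.pi_pos
  field_simp

theorem integral_ui_neg_one (h₁ : SPair R₁ D₁) (h₂ : SPair R₂ D₂) {e t : ℝ} (he : 0 ≤ e)
    (ht : t ∈ Icc (0 : ℝ) 1) : 2 / Real.pi * ∫ w in Ioi (0 : ℝ), ui R₁ D₁ R₂ D₂ (-1) e t w =
      -((Dc D₁ R₂ D₂ (-1) * (Nt R₁ D₁ R₂ D₂ (-1) e t)⁻¹).trace).re := by
  simp only [ui_eq]
  rw [integral_neg, integral_im_pos (Nt_posDef h₁ h₂ (by constructor <;> norm_num) he ht)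
    (Jc_neg_one_pos h₁ h₂) (Dc_herm h₁ h₂ (-1))]
  have := Real.pi_pos
  field_simp

theorem integrableOn_ui (h₁ : SPair R₁ D₁) (h₂ : SPair R₂ D₂) {c e t : ℝ}
    (hc : c ∈ Icc (-1 : ℝ) 1) (he : 0 ≤ e) (ht : t ∈ Icc (0 : ℝ) 1) :
    IntegrableOn (ui R₁ D₁ R₂ D₂ c e t) (Ioi 0) := by
  obtain ⟨V, W, l, h⟩ := exists_frame (Nt_posDef h₁ h₂ hc he ht) (Jc_herm h₁ h₂ c)
  have h3 := (h.integrable_im (Dc_herm h₁ h₂ c)).neg
  have e1 : (ui R₁ D₁ R₂ D₂ c e t) = -fun w =>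
      -(((Dc D₁ R₂ D₂ c * (Zm (Nt R₁ D₁ R₂ D₂ c e t) (Jc R₁ D₁ R₂ D₂ c) w)⁻¹).trace).im / w) := by
    funext w
    rw [ui_eq]
    rfl
  rw [e1]
  exact h3

theorem integral_abs_ui_le (h₁ : SPair R₁ D₁) (h₂ : SPair R₂ D₂) {c e t : ℝ}
    (hc : c ∈ Icc (-1 : ℝ) 1) (he : 0 ≤ e) (ht : t ∈ Icc (0 : ℝ) 1) :
    ∫ w in Ioi (0 : ℝ), |ui R₁ D₁ R₂ D₂ c e t w| ≤ Real.pi / 2 *
      Real.sqrt ((((Nt R₁ D₁ R₂ D₂ c e t)⁻¹).trace).re *
        (((Dc D₁ R₂ D₂ c)ᴴ * Dc D₁ R₂ D₂ c * (Nt R₁ D₁ R₂ D₂ c e t)⁻¹).trace).re) := by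
  obtain ⟨V, W, l, h⟩ := exists_frame (Nt_posDef h₁ h₂ hc he ht) (Jc_herm h₁ h₂ c)
  have h3 := h.integral_abs_im_le (Dc_herm h₁ h₂ c)
  simp only [ui_eq, abs_neg] at h3 ⊢
  exact h3

theorem Nt_affine (c e t : ℝ) : Nt R₁ D₁ R₂ D₂ c e t =
    Nt R₁ D₁ R₂ D₂ c e 0 + (t : ℂ) • ((e : ℂ) • Dc D₁ R₂ D₂ c) := by
  unfold Nt Mt
  ext i j
  simp
  ring

/-- `ε ∫_0^1 Tr Δ N_t⁻¹ dt = log det N_1 - log det N_0` -/
theorem ld_Nt (h₁ : SPair R₁ D₁) (h₂ : SPair R₂ D₂) {c e : ℝ}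
    (hc : c ∈ Icc (-1 : ℝ) 1) (he : 0 ≤ e) :
    e * ∫ t in (0 : ℝ)..1, ((Dc D₁ R₂ D₂ c * (Nt R₁ D₁ R₂ D₂ c e t)⁻¹).trace).re =
      ld (Nt R₁ D₁ R₂ D₂ c e 1) - ld (Nt R₁ D₁ R₂ D₂ c e 0) := by
  have hE : ((e : ℂ) • Dc D₁ R₂ D₂ c).IsHermitian := by
    rw [coe_smul_mat]
    exact (Dc_herm h₁ h₂ c).smul (IsSelfAdjoint.all e)
  have a1 := Nt_affine (R₁ := R₁) (D₁ := D₁) (R₂ := R₂) (D₂ := D₂) c e 1
  rw [Complex.ofReal_one, one_smul] at a1
  have h3 := ld_path (Nt_posDef h₁ h₂ hc he (t := 0) (by constructor <;> norm_num)) hE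
    (by rw [← a1]; exact Nt_posDef h₁ h₂ hc he (t := 1) (by constructor <;> norm_num))
  rw [← a1] at h3
  rw [← h3, ← intervalIntegral.integral_const_mul]
  congr 1
  funext t
  rw [← Nt_affine, Matrix.smul_mul, Matrix.trace_smul, smul_eq_mul, Complex.re_ofReal_mul]

/-- the left side of `(P_w)`, integrated over `w` -/
theorem bdy (h₁ : SPair R₁ D₁) (h₂ : SPair R₂ D₂) {e : ℝ} (he : 0 ≤ e) :
    e * (∫ t in (0 : ℝ)..1, 2 / Real.pi * ∫ w in Ioi (0 : ℝ), ui R₁ D₁ R₂ D₂ 1 e t w) -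
      e * (∫ t in (0 : ℝ)..1, 2 / Real.pi * ∫ w in Ioi (0 : ℝ), ui R₁ D₁ R₂ D₂ (-1) e t w) =
      GG R₁ D₁ R₂ D₂ e := by
  have c1 : (1 : ℝ) ∈ Icc (-1 : ℝ) 1 := by constructor <;> norm_num
  have c2 : (-1 : ℝ) ∈ Icc (-1 : ℝ) 1 := by constructor <;> norm_num
  have e1 : (∫ t in (0 : ℝ)..1, 2 / Real.pi * ∫ w in Ioi (0 : ℝ), ui R₁ D₁ R₂ D₂ 1 e t w) =
      ∫ t in (0 : ℝ)..1, ((Dc D₁ R₂ D₂ 1 * (Nt R₁ D₁ R₂ D₂ 1 e t)⁻¹).trace).re := by
    apply intervalIntegral.integral_congr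
    intro t ht
    rw [uIcc_of_le zero_le_one] at ht
    exact integral_ui_one h₁ h₂ he ht
  have e2 : (∫ t in (0 : ℝ)..1, 2 / Real.pi * ∫ w in Ioi (0 : ℝ), ui R₁ D₁ R₂ D₂ (-1) e t w) =
      -∫ t in (0 : ℝ)..1, ((Dc D₁ R₂ D₂ (-1) * (Nt R₁ D₁ R₂ D₂ (-1) e t)⁻¹).trace).re := by
    rw [← intervalIntegral.integral_neg]
    apply intervalIntegral.integral_congr
    intro t ht
    rw [uIcc_of_le zero_le_one] at ht
    exact integral_ui_neg_one h₁ h₂ he ht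
  rw [e1, e2, mul_neg, ld_Nt h₁ h₂ c1 he, ld_Nt h₁ h₂ c2 he]
  have n1 : ∀ c, Nt R₁ D₁ R₂ D₂ c e 1 = 1 + (e : ℂ) • (R₁ ⊗ₖ R₂ + D₁ ⊗ₖ D₂) := by
    intro c
    unfold Nt
    rw [Mt_one]
  have n0 : Nt R₁ D₁ R₂ D₂ 1 e 0 = 1 + (e : ℂ) • ((R₁ + D₁) ⊗ₖ R₂) := by
    unfold Nt Mt Xc
    simp
  have n0' : Nt R₁ D₁ R₂ D₂ (-1) e 0 = 1 + (e : ℂ) • ((R₁ - D₁) ⊗ₖ R₂) := by
    unfold Nt Mt Xc
    simp [sub_eq_add_neg]
  rw [n1, n1, n0, n0']
  unfold GG
  ring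

end Pool.Agent.A1
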