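import Pool.Agent.Lib_helper96.A1.Pos

/-!
# MP_859019_mp, project A1: `F = ε ∫ Tr Δ Z_t⁻¹ dt` in the directions `c` and `ε`
-/

set_option autoImplicit false
set_option linter.unusedSectionVars false

open scoped BigOperators ComplexOrder Kronecker MatrixOrder Topology
open MeasureTheory Set Matrix Filter

namespace Pool.Agent.A1

open Pool.Agent.Lib_helper96.A1



variable {ν ι κ : Type} [Fintype ν] [DecidableEq ν] [Fintype ι] [DecidableEq ι] [Fintype κ]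
  [DecidableEq κ]

/-- `Tr B Z_t⁻¹` -/
noncomputable def tz (R₁ D₁ : Matrix ι ι ℂ) (R₂ D₂ : Matrix κ κ ℂ) (B : Matrix (ι × κ) (ι × κ) ℂ)
    (c e t w : ℝ) : ℂ := (B * (Zt R₁ D₁ R₂ D₂ c e t w)⁻¹).trace

/-- `F = ε ∫_0^1 Tr Δ Z_t⁻¹ dt` -/
noncomputable def FF (R₁ D₁ : Matrix ι ι ℂ) (R₂ D₂ : Matrix κ κ ℂ) (c e w : ℝ) : ℂ :=
  e * ∫ t in (0 : ℝ)..1, tz R₁ D₁ R₂ D₂ (Dc D₁ R₂ D₂ c) c e t w

/-- `K = X_c ⊗ R₂ - Δ_c` -/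
noncomputable def Kc (R₁ D₁ : Matrix ι ι ℂ) (R₂ D₂ : Matrix κ κ ℂ) (c : ℝ) :
    Matrix (ι × κ) (ι × κ) ℂ := Xc R₁ D₁ c ⊗ₖ R₂ - Dc D₁ R₂ D₂ c

attribute [local instance] Matrix.linftyOpNormedRing Matrix.linftyOpNormedAlgebra

/-- derivative of a quadratic matrix polynomial -/
theorem hasDerivAt_quad (A B C : Matrix ν ν ℂ) (s : ℝ) :
    HasDerivAt (fun s : ℝ => A + s • B + (s ^ 2) • C) (B + (2 * s) • C) s := by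
  have h1 : HasDerivAt (fun s : ℝ => s • B) ((1 : ℝ) • B) s := (hasDerivAt_id s).smul_const B
  have h2 : HasDerivAt (fun s : ℝ => (s ^ 2) • C) (((2 : ℕ) * s ^ (2 - 1) * 1 : ℝ) • C) s :=
    ((hasDerivAt_id s).pow 2).smul_const C
  have h3 := (h1.const_add A).add h2
  refine h3.congr_deriv ?_
  simp

variable (R₁ D₁ : Matrix ι ι ℂ) (R₂ D₂ : Matrix κ κ ℂ)

/-- `∂_c Z` -/
noncomputable def Zc' (c e t w : ℝ) : Matrix (ι × κ) (ι × κ) ℂ :=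
  ((e * (1 - t) : ℝ) : ℂ) • (D₁ ⊗ₖ R₂) - (Complex.I * w) • Kc R₁ D₁ R₂ D₂ c

theorem hasDerivAt_Z_c (e t w c : ℝ) :
    HasDerivAt (fun c => Zt R₁ D₁ R₂ D₂ c e t w) (Zc' R₁ D₁ R₂ D₂ c e t w) c := by
  have h := hasDerivAt_quad
    (1 + (e : ℂ) • (R₁ ⊗ₖ R₂ + (t : ℂ) • (D₁ ⊗ₖ D₂)) + (Complex.I * w) • (R₁ ⊗ₖ D₂))
    ((e : ℂ) • (D₁ ⊗ₖ R₂ - (t : ℂ) • (D₁ ⊗ₖ R₂)) + (Complex.I * w) • (D₁ ⊗ₖ D₂ - R₁ ⊗ₖ R₂))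
    (-((Complex.I * w) • (D₁ ⊗ₖ R₂))) c
  have e1 : (fun c => Zt R₁ D₁ R₂ D₂ c e t w) = fun s : ℝ =>
      (1 + (e : ℂ) • (R₁ ⊗ₖ R₂ + (t : ℂ) • (D₁ ⊗ₖ D₂)) + (Complex.I * w) • (R₁ ⊗ₖ D₂)) +
      s • ((e : ℂ) • (D₁ ⊗ₖ R₂ - (t : ℂ) • (D₁ ⊗ₖ R₂)) +
        (Complex.I * w) • (D₁ ⊗ₖ D₂ - R₁ ⊗ₖ R₂)) +
      (s ^ 2) • (-((Complex.I * w) • (D₁ ⊗ₖ R₂))) := by
    funext s
    ext ⟨i, k⟩ ⟨j, l⟩
    simp [Zt, Nt, Mt, Dc, Jc, Xc, Wc, Matrix.kroneckerMap_apply]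
    ring
  rw [e1]
  refine h.congr_deriv ?_
  ext ⟨i, k⟩ ⟨j, l⟩
  simp [Zc', Kc, Dc, Xc, Wc, Matrix.kroneckerMap_apply]
  ring

theorem hasDerivAt_Z_t (c e w t : ℝ) :
    HasDerivAt (fun t => Zt R₁ D₁ R₂ D₂ c e t w) ((e : ℂ) • Dc D₁ R₂ D₂ c) t := by
  have h := hasDerivAt_quad
    (1 + (e : ℂ) • (Xc R₁ D₁ c ⊗ₖ R₂) + (Complex.I * w) • Jc R₁ D₁ R₂ D₂ c)
    ((e : ℂ) • Dc D₁ R₂ D₂ c) 0 t
  have e1 : (fun t => Zt R₁ D₁ R₂ D₂ c e t w) = fun s : ℝ =>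
      (1 + (e : ℂ) • (Xc R₁ D₁ c ⊗ₖ R₂) + (Complex.I * w) • Jc R₁ D₁ R₂ D₂ c) +
      s • ((e : ℂ) • Dc D₁ R₂ D₂ c) + (s ^ 2) • (0 : Matrix (ι × κ) (ι × κ) ℂ) := by
    funext s
    ext i j
    simp [Zt, Nt, Mt]
    ring
  rw [e1]
  refine h.congr_deriv ?_
  simp

theorem hasDerivAt_Z_e (c t w e : ℝ) :
    HasDerivAt (fun e => Zt R₁ D₁ R₂ D₂ c e t w) (Mt R₁ D₁ R₂ D₂ c t) e := by
  have h := hasDerivAt_quad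
    (1 + (Complex.I * w) • Jc R₁ D₁ R₂ D₂ c) (Mt R₁ D₁ R₂ D₂ c t) 0 e
  have e1 : (fun e => Zt R₁ D₁ R₂ D₂ c e t w) = fun s : ℝ =>
      (1 + (Complex.I * w) • Jc R₁ D₁ R₂ D₂ c) +
      s • Mt R₁ D₁ R₂ D₂ c t + (s ^ 2) • (0 : Matrix (ι × κ) (ι × κ) ℂ) := by
    funext s
    ext i j
    simp [Zt, Nt]
    ring
  rw [e1]
  refine h.congr_deriv ?_
  simp

theorem hasDerivAt_Zt_c (e c : ℝ) :
    HasDerivAt (fun c => (e : ℂ) • Dc D₁ R₂ D₂ c) (((-e : ℝ) : ℂ) • (D₁ ⊗ₖ R₂)) c := by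
  have h := hasDerivAt_quad ((e : ℂ) • (D₁ ⊗ₖ D₂)) (((-e : ℝ) : ℂ) • (D₁ ⊗ₖ R₂)) 0 c
  have e1 : (fun c => (e : ℂ) • Dc D₁ R₂ D₂ c) = fun s : ℝ =>
      ((e : ℂ) • (D₁ ⊗ₖ D₂)) + s • (((-e : ℝ) : ℂ) • (D₁ ⊗ₖ R₂)) +
        (s ^ 2) • (0 : Matrix (ι × κ) (ι × κ) ℂ) := by
    funext s
    ext ⟨i, k⟩ ⟨j, l⟩
    simp [Dc, Wc, Matrix.kroneckerMap_apply]
    ring
  rw [e1]
  refine h.congr_deriv ?_
  simp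

theorem hasDerivAt_Zc_t (c e w t : ℝ) :
    HasDerivAt (fun t => Zc' R₁ D₁ R₂ D₂ c e t w) (((-e : ℝ) : ℂ) • (D₁ ⊗ₖ R₂)) t := by
  have h := hasDerivAt_quad (((e : ℝ) : ℂ) • (D₁ ⊗ₖ R₂) - (Complex.I * w) • Kc R₁ D₁ R₂ D₂ c)
    (((-e : ℝ) : ℂ) • (D₁ ⊗ₖ R₂)) 0 t
  have e1 : (fun t => Zc' R₁ D₁ R₂ D₂ c e t w) = fun s : ℝ =>
      (((e : ℝ) : ℂ) • (D₁ ⊗ₖ R₂) - (Complex.I * w) • Kc R₁ D₁ R₂ D₂ c) +
        s • (((-e : ℝ) : ℂ) • (D₁ ⊗ₖ R₂)) +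
        (s ^ 2) • (0 : Matrix (ι × κ) (ι × κ) ℂ) := by
    funext s
    ext i j
    simp [Zc']
    ring
  rw [e1]
  refine h.congr_deriv ?_
  simp

theorem hasDerivAt_Zt_e (c e : ℝ) :
    HasDerivAt (fun e : ℝ => (e : ℂ) • Dc D₁ R₂ D₂ c) (Dc D₁ R₂ D₂ c) e := by
  have h := hasDerivAt_quad 0 (Dc D₁ R₂ D₂ c) 0 e
  have e1 : (fun e : ℝ => (e : ℂ) • Dc D₁ R₂ D₂ c) = fun s : ℝ =>
      (0 : Matrix (ι × κ) (ι × κ) ℂ) + s • (Dc D₁ R₂ D₂ c) +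
        (s ^ 2) • (0 : Matrix (ι × κ) (ι × κ) ℂ) := by
    funext s
    ext i j
    simp
  rw [e1]
  refine h.congr_deriv ?_
  simp

theorem hasDerivAt_M_t (c t : ℝ) :
    HasDerivAt (fun t => Mt R₁ D₁ R₂ D₂ c t) (Dc D₁ R₂ D₂ c) t := by
  have h := hasDerivAt_quad (Xc R₁ D₁ c ⊗ₖ R₂) (Dc D₁ R₂ D₂ c) 0 t
  have e1 : (fun t => Mt R₁ D₁ R₂ D₂ c t) = fun s : ℝ =>
      (Xc R₁ D₁ c ⊗ₖ R₂) + s • (Dc D₁ R₂ D₂ c) +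
        (s ^ 2) • (0 : Matrix (ι × κ) (ι × κ) ℂ) := by
    funext s
    ext i j
    simp [Mt]
  rw [e1]
  refine h.congr_deriv ?_
  simp

theorem continuous_Z : Continuous fun x : ℝ × ℝ × ℝ × ℝ =>
    Zt R₁ D₁ R₂ D₂ x.1 x.2.1 x.2.2.1 x.2.2.2 := by
  apply continuous_matrix
  rintro ⟨i, k⟩ ⟨j, l⟩
  simp only [Zt, Nt, Mt, Dc, Jc, Xc, Wc, Matrix.kroneckerMap_apply, Matrix.add_apply,
    Matrix.smul_apply, Matrix.sub_apply, smul_eq_mul]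
  fun_prop

theorem continuous_Zc' : Continuous fun x : ℝ × ℝ × ℝ × ℝ =>
    Zc' R₁ D₁ R₂ D₂ x.1 x.2.1 x.2.2.1 x.2.2.2 := by
  apply continuous_matrix
  rintro ⟨i, k⟩ ⟨j, l⟩
  simp only [Zc', Kc, Dc, Xc, Wc, Matrix.kroneckerMap_apply, Matrix.add_apply,
    Matrix.smul_apply, Matrix.sub_apply, smul_eq_mul]
  fun_prop

theorem continuous_Dc : Continuous fun c : ℝ => Dc D₁ R₂ D₂ c := by
  apply continuous_matrix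
  rintro ⟨i, k⟩ ⟨j, l⟩
  simp only [Dc, Wc, Matrix.kroneckerMap_apply,
    Matrix.smul_apply, Matrix.sub_apply, smul_eq_mul]
  fun_prop

theorem continuous_Kc : Continuous fun c : ℝ => Kc R₁ D₁ R₂ D₂ c := by
  apply continuous_matrix
  rintro ⟨i, k⟩ ⟨j, l⟩
  simp only [Kc, Xc, Dc, Wc, Matrix.kroneckerMap_apply, Matrix.add_apply,
    Matrix.smul_apply, Matrix.sub_apply, smul_eq_mul]
  fun_prop

theorem continuous_Mt : Continuous fun x : ℝ × ℝ => Mt R₁ D₁ R₂ D₂ x.1 x.2 := by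
  apply continuous_matrix
  rintro ⟨i, k⟩ ⟨j, l⟩
  simp only [Mt, Xc, Dc, Wc, Matrix.kroneckerMap_apply, Matrix.add_apply,
    Matrix.smul_apply, Matrix.sub_apply, smul_eq_mul]
  fun_prop

variable {R₁ D₁ R₂ D₂}

/-- the compact parameter set -/
def Box : Set (ℝ × ℝ × ℝ × ℝ) := {x | x.1 ∈ Icc (-1 : ℝ) 1 ∧ 0 ≤ x.2.1 ∧ x.2.2.1 ∈ Icc (0 : ℝ) 1}

/-- `Tr B Z⁻¹` is continuous on the box -/
theorem continuousOn_tz (h₁ : SPair R₁ D₁) (h₂ : SPair R₂ D₂)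
    {B : ℝ × ℝ × ℝ × ℝ → Matrix (ι × κ) (ι × κ) ℂ} (hB : Continuous B) :
    ContinuousOn (fun x : ℝ × ℝ × ℝ × ℝ => tz R₁ D₁ R₂ D₂ (B x) x.1 x.2.1 x.2.2.1 x.2.2.2) Box := by
  have h := continuousOn_inv (continuous_Z R₁ D₁ R₂ D₂).continuousOn (S := Box)
    fun x hx => Zt_unit h₁ h₂ hx.1 hx.2.1 hx.2.2 x.2.2.2
  exact (Continuous.matrix_trace continuous_id).comp_continuousOn (hB.continuousOn.mul h)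

/-- `F` in the direction `c` -/
theorem FF_c (h₁ : SPair R₁ D₁) (h₂ : SPair R₂ D₂) {e : ℝ} (he : 0 ≤ e) (w : ℝ) {c₁ c₂ : ℝ}
    (h1 : -1 ≤ c₁) (h12 : c₁ ≤ c₂) (h2 : c₂ ≤ 1) :
    FF R₁ D₁ R₂ D₂ c₂ e w - FF R₁ D₁ R₂ D₂ c₁ e w =
      ∫ c in c₁..c₂, (tz R₁ D₁ R₂ D₂ (Zc' R₁ D₁ R₂ D₂ c e 1 w) c e 1 w -
        tz R₁ D₁ R₂ D₂ (Zc' R₁ D₁ R₂ D₂ c e 0 w) c e 0 w) := by
  have hr := rect (Z := fun c t => Zt R₁ D₁ R₂ D₂ c e t w)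
    (Zs := fun c t => Zc' R₁ D₁ R₂ D₂ c e t w)
    (Zt := fun c _ => (e : ℂ) • Dc D₁ R₂ D₂ c) (Zst := fun _ _ => ((-e : ℝ) : ℂ) • (D₁ ⊗ₖ R₂))
    h12 (zero_le_one (α := ℝ))
    (fun c t => hasDerivAt_Z_c R₁ D₁ R₂ D₂ e t w c) (fun c t => hasDerivAt_Z_t R₁ D₁ R₂ D₂ c e w t)
    (fun c _ => hasDerivAt_Zt_c D₁ R₂ D₂ e c) (fun c t => hasDerivAt_Zc_t R₁ D₁ R₂ D₂ c e w t)
    ((continuous_Z R₁ D₁ R₂ D₂).comp (f := fun x : ℝ × ℝ => (x.1, e, x.2, w)) (by fun_prop))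
    ((continuous_Zc' R₁ D₁ R₂ D₂).comp (f := fun x : ℝ × ℝ => (x.1, e, x.2, w)) (by fun_prop))
    (by
      have : Continuous fun x : ℝ × ℝ => Dc D₁ R₂ D₂ x.1 :=
        (continuous_Dc D₁ R₂ D₂).comp continuous_fst
      exact this.const_smul (e : ℂ)) continuous_const
    (fun c hc t ht => Zt_unit h₁ h₂ ⟨h1.trans hc.1, hc.2.trans h2⟩ he ht w)
  rw [show (∫ c in c₁..c₂, (tz R₁ D₁ R₂ D₂ (Zc' R₁ D₁ R₂ D₂ c e 1 w) c e 1 w -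
        tz R₁ D₁ R₂ D₂ (Zc' R₁ D₁ R₂ D₂ c e 0 w) c e 0 w)) = _ from hr.symm]
  have hi : ∀ c ∈ Icc (-1 : ℝ) 1, IntervalIntegrable
      (fun t => tz R₁ D₁ R₂ D₂ (Dc D₁ R₂ D₂ c) c e t w) volume 0 1 := by
    intro c hc
    apply ContinuousOn.intervalIntegrable
    rw [uIcc_of_le zero_le_one]
    exact (continuousOn_tz h₁ h₂ (B := fun _ => Dc D₁ R₂ D₂ c) continuous_const).comp
      (f := fun t : ℝ => (c, e, t, w)) (by fun_prop) fun t ht => ⟨hc, he, ht⟩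
  unfold FF
  rw [← mul_sub, ← intervalIntegral.integral_sub (hi _ ⟨h1.trans h12, h2⟩) (hi _ ⟨h1, h12.trans h2⟩),
    ← intervalIntegral.integral_const_mul]
  congr 1
  funext t
  simp only [tz, Matrix.smul_mul, Matrix.trace_smul, smul_eq_mul]
  ring

/-- `F` in the direction `ε` -/
theorem FF_e (h₁ : SPair R₁ D₁) (h₂ : SPair R₂ D₂) {c : ℝ} (hc : c ∈ Icc (-1 : ℝ) 1) (w : ℝ)
    {e₁ e₂ : ℝ} (h1 : 0 ≤ e₁) (h12 : e₁ ≤ e₂) :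
    FF R₁ D₁ R₂ D₂ c e₂ w - FF R₁ D₁ R₂ D₂ c e₁ w =
      ∫ e in e₁..e₂, (tz R₁ D₁ R₂ D₂ (Mt R₁ D₁ R₂ D₂ c 1) c e 1 w -
        tz R₁ D₁ R₂ D₂ (Mt R₁ D₁ R₂ D₂ c 0) c e 0 w) := by
  have hr := rect (Z := fun e t => Zt R₁ D₁ R₂ D₂ c e t w)
    (Zs := fun _ t => Mt R₁ D₁ R₂ D₂ c t)
    (Zt := fun e _ => (e : ℂ) • Dc D₁ R₂ D₂ c) (Zst := fun _ _ => Dc D₁ R₂ D₂ c)
    h12 (zero_le_one (α := ℝ))
    (fun e t => hasDerivAt_Z_e R₁ D₁ R₂ D₂ c t w e) (fun e t => hasDerivAt_Z_t R₁ D₁ R₂ D₂ c e w t)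
    (fun e _ => hasDerivAt_Zt_e D₁ R₂ D₂ c e) (fun _ t => hasDerivAt_M_t R₁ D₁ R₂ D₂ c t)
    ((continuous_Z R₁ D₁ R₂ D₂).comp (f := fun x : ℝ × ℝ => (c, x.1, x.2, w)) (by fun_prop))
    ((continuous_Mt R₁ D₁ R₂ D₂).comp (f := fun x : ℝ × ℝ => (c, x.2)) (by fun_prop))
    (by
      have : Continuous fun x : ℝ × ℝ => ((x.1 : ℝ) : ℂ) := by fun_prop
      exact this.smul continuous_const)
    continuous_const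
    (fun e he t ht => Zt_unit h₁ h₂ hc (h1.trans he.1) ht w)
  rw [show (∫ e in e₁..e₂, (tz R₁ D₁ R₂ D₂ (Mt R₁ D₁ R₂ D₂ c 1) c e 1 w -
        tz R₁ D₁ R₂ D₂ (Mt R₁ D₁ R₂ D₂ c 0) c e 0 w)) = _ from hr.symm]
  have hi : ∀ e : ℝ, 0 ≤ e → IntervalIntegrable
      (fun t => (e : ℂ) * tz R₁ D₁ R₂ D₂ (Dc D₁ R₂ D₂ c) c e t w) volume 0 1 := by
    intro e he
    apply IntervalIntegrable.const_mul
    apply ContinuousOn.intervalIntegrable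
    rw [uIcc_of_le zero_le_one]
    exact (continuousOn_tz h₁ h₂ (B := fun _ => Dc D₁ R₂ D₂ c) continuous_const).comp
      (f := fun t : ℝ => (c, e, t, w)) (by fun_prop) fun t ht => ⟨hc, he, ht⟩
  unfold FF
  rw [← intervalIntegral.integral_const_mul, ← intervalIntegral.integral_const_mul,
    ← intervalIntegral.integral_sub (hi _ (h1.trans h12)) (hi _ h1)]
  congr 1
  funext t
  simp only [tz, Matrix.smul_mul, Matrix.trace_smul, smul_eq_mul]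

end Pool.Agent.A1
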