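import Pool.Agent.Lib_helper95.RC.Defs

/-!
# MP_859019_mp, project A1: the letters of the `w` form
-/

set_option autoImplicit false

open scoped BigOperators ComplexOrder Kronecker MatrixOrder Topology
open MeasureTheory Set Matrix Filter

namespace Pool.Agent.A1

variable {ι κ : Type} [Fintype ι] [DecidableEq ι] [Fintype κ] [DecidableEq κ]

/-- `X_c = R + c D` -/
noncomputable def Xc (R D : Matrix ι ι ℂ) (c : ℝ) : Matrix ι ι ℂ := R + (c : ℂ) • D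

/-- `W_c = D - c R` -/
noncomputable def Wc (R D : Matrix κ κ ℂ) (c : ℝ) : Matrix κ κ ℂ := D - (c : ℂ) • R

/-- `J_c = X_c ⊗ W_c` -/
noncomputable def Jc (R₁ D₁ : Matrix ι ι ℂ) (R₂ D₂ : Matrix κ κ ℂ) (c : ℝ) :
    Matrix (ι × κ) (ι × κ) ℂ := Xc R₁ D₁ c ⊗ₖ Wc R₂ D₂ c

/-- `Δ_c = D₁ ⊗ W_c` -/
noncomputable def Dc (D₁ : Matrix ι ι ℂ) (R₂ D₂ : Matrix κ κ ℂ) (c : ℝ) :
    Matrix (ι × κ) (ι × κ) ℂ := D₁ ⊗ₖ Wc R₂ D₂ c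

/-- `M_t = X_c ⊗ R₂ + t Δ_c` -/
noncomputable def Mt (R₁ D₁ : Matrix ι ι ℂ) (R₂ D₂ : Matrix κ κ ℂ) (c t : ℝ) :
    Matrix (ι × κ) (ι × κ) ℂ := Xc R₁ D₁ c ⊗ₖ R₂ + (t : ℂ) • Dc D₁ R₂ D₂ c

/-- `N_t = 1 + ε M_t` -/
noncomputable def Nt (R₁ D₁ : Matrix ι ι ℂ) (R₂ D₂ : Matrix κ κ ℂ) (c e t : ℝ) :
    Matrix (ι × κ) (ι × κ) ℂ := 1 + (e : ℂ) • Mt R₁ D₁ R₂ D₂ c t

/-- `Z_t = N_t + i w J_c` -/
noncomputable def Zt (R₁ D₁ : Matrix ι ι ℂ) (R₂ D₂ : Matrix κ κ ℂ) (c e t w : ℝ) :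
    Matrix (ι × κ) (ι × κ) ℂ := Nt R₁ D₁ R₂ D₂ c e t + (Complex.I * w) • Jc R₁ D₁ R₂ D₂ c

/-- strict pair: `-R < D < R` -/
structure SPair (R D : Matrix ι ι ℂ) : Prop where
  sub : (R - D).PosDef
  add : (R + D).PosDef

end Pool.Agent.A1
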