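import Pool.Agent.Lib_helper96.A1.Pw

/-!
# MP_859019_mp, project A1: the blocks POS and PW in the form of the statement list
-/

set_option autoImplicit false
set_option linter.unusedSectionVars false

open scoped BigOperators ComplexOrder Kronecker MatrixOrder Topology
open MeasureTheory Set Matrix Filter

namespace Pool.Agent.A1

open Pool.Agent.Lib_helper96.A1

theorem posS : ∀ (ι κ : Type) [Fintype ι] [DecidableEq ι] [Fintype κ] [DecidableEq κ]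
    (R₁ D₁ : Matrix ι ι ℂ) (R₂ D₂ : Matrix κ κ ℂ), SPair R₁ D₁ → SPair R₂ D₂ →
    (∀ c ∈ Icc (-1 : ℝ) 1, ∀ t ∈ Icc (0 : ℝ) 1, (Mt R₁ D₁ R₂ D₂ c t).PosDef) ∧
    (∀ c ∈ Icc (-1 : ℝ) 1, ∀ e : ℝ, 0 ≤ e → ∀ t ∈ Icc (0 : ℝ) 1, (Nt R₁ D₁ R₂ D₂ c e t).PosDef) ∧
    (∀ c : ℝ, (Jc R₁ D₁ R₂ D₂ c).IsHermitian ∧ (Dc D₁ R₂ D₂ c).IsHermitian) ∧
    (∀ c ∈ Icc (-1 : ℝ) 1, ∀ e : ℝ, 0 ≤ e → ∀ t ∈ Icc (0 : ℝ) 1, ∀ w : ℝ,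
      IsUnit (Zt R₁ D₁ R₂ D₂ c e t w)) ∧
    ContinuousOn (fun x : ℝ × ℝ × ℝ × ℝ => (Zt R₁ D₁ R₂ D₂ x.1 x.2.1 x.2.2.1 x.2.2.2)⁻¹)
      (Icc (-1) 1 ×ˢ Ici 0 ×ˢ Icc 0 1 ×ˢ univ) := by
  intro ι κ _ _ _ _ R₁ D₁ R₂ D₂ h₁ h₂
  refine ⟨fun c hc t ht => Mt_posDef h₁ h₂ hc ht, fun c hc e he t ht => Nt_posDef h₁ h₂ hc he ht,
    fun c => ⟨Jc_herm h₁ h₂ c, Dc_herm h₁ h₂ c⟩,
    fun c hc e he t ht w => Zt_unit h₁ h₂ hc he ht w, ?_⟩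
  exact continuousOn_inv (continuous_Z R₁ D₁ R₂ D₂).continuousOn
    fun x hx => Zt_unit h₁ h₂ hx.1 hx.2.1 hx.2.2.1 x.2.2.2

theorem pwS : ∀ (ι κ : Type) [Fintype ι] [DecidableEq ι] [Fintype κ] [DecidableEq κ]
    (R₁ D₁ : Matrix ι ι ℂ) (R₂ D₂ : Matrix κ κ ℂ), SPair R₁ D₁ → SPair R₂ D₂ →
    ∀ α w e₀ E : ℝ, 0 < w → 0 < e₀ → e₀ ≤ E →
      ∫ e in e₀..E, e ^ (-α) * ∫ t in (0 : ℝ)..1, (ui R₁ D₁ R₂ D₂ 1 e t w - ui R₁ D₁ R₂ D₂ (-1) e t w) =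
        ∫ c in (-1 : ℝ)..1, (-(E ^ (-α) * ∫ t in (0 : ℝ)..1, uu R₁ D₁ R₂ D₂ c E t w)
          + e₀ ^ (-α) * (∫ t in (0 : ℝ)..1, uu R₁ D₁ R₂ D₂ c e₀ t w)
          + ∫ e in e₀..E, (e ^ (-1 - α) * (-(1 + α) * (∫ t in (0 : ℝ)..1, uu R₁ D₁ R₂ D₂ c e t w)
              + 2 * uu R₁ D₁ R₂ D₂ c e 1 w - uu R₁ D₁ R₂ D₂ c e 0 w) + e ^ (-α) * vv R₁ D₁ R₂ D₂ c e w)) := by
  intro ι κ _ _ _ _ R₁ D₁ R₂ D₂ h₁ h₂ α w e₀ E hw h0 hE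
  have hE0 : 0 < E := lt_of_lt_of_le h0 hE
  have h := Pw h₁ h₂ hw h0 hE (fun e => e ^ (-1 - α)) (fun e => (-1 - α) * e ^ (-1 - α - 1))
    (fun e he => Real.hasDerivAt_rpow_const (Or.inl he.ne'))
    (continuousOn_const.mul (continuousOn_id.rpow_const fun x hx => Or.inl (ne_of_gt hx)))
  have p1 : ∀ e : ℝ, 0 < e → e ^ (-1 - α) * e = e ^ (-α) := by
    intro e he
    nth_rewrite 2 [← Real.rpow_one e]
    rw [← Real.rpow_add he]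
    congr 1
    ring
  have p2 : ∀ e : ℝ, 0 < e → e ^ (-1 - α - 1) * e = e ^ (-1 - α) := by
    intro e he
    nth_rewrite 2 [← Real.rpow_one e]
    rw [← Real.rpow_add he]
    congr 1
    ring
  have hint : ∀ c ∈ Icc (-1 : ℝ) 1, ∀ e : ℝ, 0 ≤ e →
      IntervalIntegrable (fun t => ui R₁ D₁ R₂ D₂ c e t w) volume 0 1 := by
    intro c hc e he
    apply ContinuousOn.intervalIntegrable
    rw [uIcc_of_le zero_le_one]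
    unfold ui
    apply continuousOn_const.mul
    exact Complex.continuous_im.comp_continuousOn ((cont_tzD h₁ h₂).comp
      (f := fun t : ℝ => (c, e, t, w)) (by fun_prop) fun t ht => ⟨hc, he, ht⟩)
  have hL : ∫ e in e₀..E, e ^ (-α) *
      ∫ t in (0 : ℝ)..1, (ui R₁ D₁ R₂ D₂ 1 e t w - ui R₁ D₁ R₂ D₂ (-1) e t w) =
      ∫ e in e₀..E, e ^ (-1 - α) * (e * (∫ t in (0 : ℝ)..1, ui R₁ D₁ R₂ D₂ 1 e t w) -
        e * ∫ t in (0 : ℝ)..1, ui R₁ D₁ R₂ D₂ (-1) e t w) := by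
    apply intervalIntegral.integral_congr
    intro e he
    rw [uIcc_of_le hE] at he
    have he0 : 0 < e := lt_of_lt_of_le h0 he.1
    simp only
    rw [intervalIntegral.integral_sub (hint 1 (by constructor <;> norm_num) e he0.le)
      (hint (-1) (by constructor <;> norm_num) e he0.le), ← p1 e he0]
    ring
  rw [hL, h]
  apply intervalIntegral.integral_congr
  intro c _
  simp only
  have e1 : E ^ (-1 - α) * RF R₁ D₁ R₂ D₂ c E w =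
      E ^ (-α) * ∫ t in (0 : ℝ)..1, uu R₁ D₁ R₂ D₂ c E t w := by
    unfold RF; rw [← p1 E hE0]; ring
  have e2 : e₀ ^ (-1 - α) * RF R₁ D₁ R₂ D₂ c e₀ w =
      e₀ ^ (-α) * ∫ t in (0 : ℝ)..1, uu R₁ D₁ R₂ D₂ c e₀ t w := by
    unfold RF; rw [← p1 e₀ h0]; ring
  have e3 : (∫ e in e₀..E, ((-1 - α) * e ^ (-1 - α - 1) * RF R₁ D₁ R₂ D₂ c e w +
      e ^ (-1 - α) * (2 * uu R₁ D₁ R₂ D₂ c e 1 w - uu R₁ D₁ R₂ D₂ c e 0 w) +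
      e ^ (-1 - α) * (e * vv R₁ D₁ R₂ D₂ c e w))) =
      ∫ e in e₀..E, (e ^ (-1 - α) * (-(1 + α) * (∫ t in (0 : ℝ)..1, uu R₁ D₁ R₂ D₂ c e t w)
              + 2 * uu R₁ D₁ R₂ D₂ c e 1 w - uu R₁ D₁ R₂ D₂ c e 0 w) + e ^ (-α) * vv R₁ D₁ R₂ D₂ c e w) := by
    apply intervalIntegral.integral_congr
    intro e he
    rw [uIcc_of_le hE] at he
    have he0 : 0 < e := lt_of_lt_of_le h0 he.1
    simp only
    unfold RF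
    rw [← p1 e he0]
    have := p2 e he0
    calc (-1 - α) * e ^ (-1 - α - 1) * (e * ∫ t in (0 : ℝ)..1, uu R₁ D₁ R₂ D₂ c e t w) +
          e ^ (-1 - α) * (2 * uu R₁ D₁ R₂ D₂ c e 1 w - uu R₁ D₁ R₂ D₂ c e 0 w) +
          e ^ (-1 - α) * (e * vv R₁ D₁ R₂ D₂ c e w)
        = (-1 - α) * (e ^ (-1 - α - 1) * e) * (∫ t in (0 : ℝ)..1, uu R₁ D₁ R₂ D₂ c e t w) +
          e ^ (-1 - α) * (2 * uu R₁ D₁ R₂ D₂ c e 1 w - uu R₁ D₁ R₂ D₂ c e 0 w) +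
          e ^ (-1 - α) * (e * vv R₁ D₁ R₂ D₂ c e w) := by ring
      _ = _ := by rw [this]; ring
  rw [e1, e2, e3]
  ring

end Pool.Agent.A1
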