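import Pool.Agent.Lib_helper59.A1.Stmts
import Pool.Agent.Lib_helper96.A1.PwS

/-!
# MP_859019_mp, project A1: the blocks POS and PW
-/

set_option autoImplicit false

namespace Pool.Agent.A1W

theorem pos_stmt : POSStmt := Pool.Agent.A1.posS

theorem pw_stmt : PWStmt := Pool.Agent.A1.pwS

end Pool.Agent.A1W
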